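import Pool.Agent.H61.KV.TE

/-!
# Boundary points of a minimal face
-/

open Topology Set
open Pool.Agent.H61.KV

namespace Pool.Agent.H16.KV.EBD

theorem pf_EBD (h1 : T_EFR) (h2 : T_FCB) (h3 : T_CNC) : T_EBD := by
  intro V _ _ _ m hC hN p t hM hB
  have hcc : IsCC (Cn m) := (h3 V m hC).1
  obtain ⟨hpC, hpM, hmin⟩ := hM
  obtain ⟨htF, ht0, hpt⟩ := hB
  have hs : Fc (Cn m) t ⊆ Mh m := (hmin t htF).resolve_left hpt
  have htC : t ∈ Cn m := htF.1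
  have htt : t ∈ Fc (Cn m) t := (h2 V (Cn m) t hcc htC).1
  exact ⟨hs htt, hs, h1 V m hC hN t htC hs⟩

end Pool.Agent.H16.KV.EBD
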